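import Mathlib
import Pool.Agent.X260.VFDefs
import Pool.Agent.X260.Tree

/-!
# Amalgams of virtually fibered groups over infinite virtually cyclic virtual retracts are
virtually fibered
-/

set_option autoImplicit false

namespace Pool.Agent.Results.MP_9d1793_al.AmalgamVFibered

open Pool.Agent.X260.VF Pool.Agent.X260.Tree

universe u

theorem bool_tree : (⊤ : SimpleGraph Bool).IsTree := by
  rw [SimpleGraph.isTree_iff_connected_and_card]
  refine ⟨SimpleGraph.connected_top, ?_⟩
  have h : ((⊤ : SimpleGraph Bool)).edgeSet = {s(true, false)} := by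
    ext e
    induction e with | _ a b => cases a <;> cases b <;> simp
  rw [h]
  simp

/-- **Virtual fibering of amalgams.** Let `φ true : G₀ → G₁ = G true` and
`φ false : G₀ → G₂ = G false` be injective homomorphisms, `G₀` infinite virtually cyclic, `G₁` and
`G₂` virtually fibered, and let the image of `G₀` be a virtual retract of `G₁` and of `G₂`. Then the
amalgamated free product `G₁ *_{G₀} G₂` (Mathlib's `Monoid.PushoutI φ`) is virtually fibered. -/
theorem result {G₀ : Type u} [Group G₀] (G : Bool → Type u) [∀ b, Group (G b)]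
    (φ : ∀ b, G₀ →* G b) (hφ : ∀ b, Function.Injective (φ b)) (h₀ : InfVCyclic G₀)
    (hG : ∀ b, VFibered (G b)) (hr : ∀ b, VRetract (φ b).range) :
    VFibered (Monoid.PushoutI φ) := by
  refine core (⊤ : SimpleGraph Bool) bool_tree G (fun _ => G₀) (fun _ b _ => φ b)
    (fun _ b _ => hφ b) hG (fun _ => h₀) (fun _ b _ => hr b) (Monoid.PushoutI φ)
    (fun b => Monoid.PushoutI.of b) ?_ ?_ ?_
  · rw [eq_top_iff]
    intro x _
    have hle : ∀ b, (Monoid.PushoutI.of (φ := φ) b).range ≤
        ⨆ b, (Monoid.PushoutI.of (φ := φ) b).range := fun b =>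
      le_iSup (fun b => (Monoid.PushoutI.of (φ := φ) b).range) b
    induction x using Monoid.PushoutI.induction_on with
    | of b g => exact hle b ⟨g, rfl⟩
    | base h =>
      rw [← Monoid.PushoutI.of_apply_eq_base φ true]
      exact hle true ⟨_, rfl⟩
    | mul x y hx hy => exact mul_mem (hx trivial) (hy trivial)
  · intro _ v w _ _
    rw [Monoid.PushoutI.of_comp_eq_base, Monoid.PushoutI.of_comp_eq_base]
  · intro Ω β hβ
    have h1 : ∀ b, (β b).comp (φ b) = (β true).comp (φ true) := by
      intro b
      cases b with
      | true => rfl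
      | false =>
        exact hβ ⟨s(true, false), by simp⟩ false true (Sym2.mem_mk_right _ _)
          (Sym2.mem_mk_left _ _)
    exact ⟨Monoid.PushoutI.lift β ((β true).comp (φ true)) h1, fun b =>
      MonoidHom.ext fun g => by rw [MonoidHom.comp_apply, Monoid.PushoutI.lift_of]⟩

end Pool.Agent.Results.MP_9d1793_al.AmalgamVFibered
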